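import Pool.Agent.H62.UN.Targets

/-!
# Row NFI of the board unt_modules: the coordinate ring of a chart
-/

set_option autoImplicit false

namespace Pool.Agent.H74.UNT

open Polynomial Pool.Agent.H17.UN Pool.Agent.H62.UN

/-- the evaluation at `x` (inner variable) and `z` (outer variable) -/
noncomputable def ev {k : Type} [Field k] {E : Type} [CommRing E] [Algebra k E] (x z : E) :
    k[X][X] →ₐ[k] E := aevalTower (aeval x) z

section

variable {k : Type} [Field k]

theorem ev_C {E : Type} [CommRing E] [Algebra k E] (x z : E) (p : k[X]) :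
    ev x z (C p) = aeval x p := aevalTower_C _ _ _

theorem ev_X {E : Type} [CommRing E] [Algebra k E] (x z : E) : ev x z (X : k[X][X]) = z :=
  aevalTower_X _ _

theorem ev_ext {B : Type} [CommRing B] [Algebra k B] {f g : k[X][X] →ₐ[k] B}
    (h1 : f (C X) = g (C X)) (h2 : f X = g X) : f = g := by
  refine Polynomial.algHom_ext' ?_ h2
  apply Polynomial.algHom_ext
  exact h1

variable {E : Type} [Field E] [Algebra k E]

theorem ev_inj (x z : E) (h : AlgebraicIndependent k ![x, z]) :
    Function.Injective (ev (k := k) x z) := by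
  obtain ⟨G, hG⟩ : ∃ G : k[X][X] →ₐ[k] MvPolynomial (Fin 2) k,
      G = ev (MvPolynomial.X 0) (MvPolynomial.X 1) := ⟨_, rfl⟩
  obtain ⟨H, hH⟩ : ∃ H : MvPolynomial (Fin 2) k →ₐ[k] k[X][X],
      H = MvPolynomial.aeval (![C X, X] : Fin 2 → k[X][X]) := ⟨_, rfl⟩
  have h1 : H.comp G = AlgHom.id k k[X][X] := by
    apply ev_ext
    · rw [AlgHom.comp_apply, hG, ev_C, aeval_X, hH, MvPolynomial.aeval_X]
      rfl
    · rw [AlgHom.comp_apply, hG, ev_X, hH, MvPolynomial.aeval_X]
      rfl
  have h2 : ev (k := k) x z = (MvPolynomial.aeval ![x, z]).comp G := by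
    apply ev_ext
    · rw [AlgHom.comp_apply, hG, ev_C, ev_C, aeval_X, aeval_X, MvPolynomial.aeval_X]
      rfl
    · rw [AlgHom.comp_apply, hG, ev_X, ev_X, MvPolynomial.aeval_X]
      rfl
  have h3 : Function.Injective G := by
    intro a b hab
    have h4 := congrArg H hab
    have h5 : ∀ a, H (G a) = a := fun a => AlgHom.congr_fun h1 a
    rwa [h5, h5] at h4
  rw [h2]
  have h6 : Function.Injective (MvPolynomial.aeval ![x, z] : MvPolynomial (Fin 2) k →ₐ[k] E) := h
  exact h6.comp h3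

theorem dp_ev (P Q : k[X]) (x z : E) :
    ev x z (dp P Q) = aeval x P + aeval x Q * z ^ 2 := by
  unfold dp
  rw [map_add, map_mul, map_pow, ev_C, ev_C, ev_X]

/-- `P + Q X ^ 2` is not a quotient of squares -/
theorem dp_sq [CharZero k] (P Q : k[X]) (hsep : (P * Q).Separable) (α β : k[X][X]) (hβ : β ≠ 0)
    (h : α ^ 2 = β ^ 2 * dp P Q) : False := by
  have hPQ : P * Q ≠ 0 := hsep.ne_zero
  have hP : P ≠ 0 := left_ne_zero_of_mul hPQ
  have hQ : Q ≠ 0 := right_ne_zero_of_mul hPQ
  have hcop : IsCoprime P Q := hsep.isCoprime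
  have hdeg : (dp P Q).natDegree = 2 := by
    unfold dp
    rw [add_comm]
    compute_degree!
  have hdp0 : dp P Q ≠ 0 := by
    intro h0
    rw [h0, natDegree_zero] at hdeg
    omega
  have hnu : ¬ IsUnit (dp P Q) := by
    intro hu
    have := natDegree_eq_zero_of_isUnit hu
    omega
  obtain ⟨p, hpi, hpd⟩ := WfDvdMonoid.exists_irreducible_factor hnu hdp0
  have hp : Prime p := hpi.prime
  obtain ⟨α', β', c', hrel, hα, hβ'⟩ :=
    UniqueFactorizationMonoid.exists_reduced_factors' α β hβ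
  have hc' : c' ≠ 0 := by
    rintro rfl
    rw [zero_mul] at hβ'
    exact hβ hβ'.symm
  have h1 : α' ^ 2 = β' ^ 2 * dp P Q := by
    rw [← hα, ← hβ'] at h
    have h2 : c' ^ 2 * α' ^ 2 = c' ^ 2 * (β' ^ 2 * dp P Q) := by
      linear_combination h
    exact mul_left_cancel₀ (pow_ne_zero 2 hc') h2
  have h2 : p ∣ α' := by
    apply hp.dvd_of_dvd_pow (n := 2)
    rw [h1]
    exact hpd.mul_left _
  have h3 : ¬ p ∣ β' ^ 2 := by
    intro h4
    exact hp.not_isUnit (hrel h2 (hp.dvd_of_dvd_pow h4))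
  have h4 : p ^ 2 ∣ dp P Q := by
    refine hp.pow_dvd_of_dvd_mul_left 2 h3 ?_
    rw [← h1]
    exact pow_dvd_pow_of_dvd h2 2
  have h5 : p ∣ derivative (dp P Q) := by
    obtain ⟨r, hr⟩ := h4
    rw [hr, derivative_mul, derivative_pow]
    refine dvd_add (Dvd.dvd.mul_right ?_ _) (Dvd.dvd.mul_right (dvd_pow_self p two_ne_zero) _)
    refine Dvd.dvd.mul_right (Dvd.dvd.mul_left ?_ _) _
    simp
  have h6 : derivative (dp P Q) = 2 * (C Q * X) := by
    unfold dp
    rw [derivative_add, derivative_C, derivative_C_mul, derivative_X_pow]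
    have h7 : (C ((2 : ℕ) : k[X]) : k[X][X]) = 2 := by
      rw [map_natCast]
      rfl
    rw [h7]
    ring
  have htwo : IsUnit (2 : k[X][X]) := by
    have h7 : (2 : k[X][X]) = C (C (2 : k)) := by
      rw [map_ofNat, map_ofNat]
    rw [h7]
    exact ((IsUnit.mk0 (2 : k) two_ne_zero).map C).map C
  have h7 : p ∣ C Q * X := by
    rw [h6] at h5
    exact (htwo.dvd_mul_left).1 h5
  have h8 : p ∣ C P := by
    have h9 : C P = dp P Q - (C Q * X) * X := by
      unfold dp
      ring
    rw [h9]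
    exact dvd_sub hpd (h7.mul_right X)
  rcases hp.dvd_or_dvd h7 with h9 | h9
  · obtain ⟨a, b, hab⟩ := hcop
    apply hp.not_isUnit
    apply isUnit_of_dvd_one
    have h10 : (1 : k[X][X]) = C a * C P + C b * C Q := by
      rw [← C_mul, ← C_mul, ← C_add, hab, C_1]
    rw [h10]
    exact dvd_add (h8.mul_left _) (h9.mul_left _)
  · have h10 : X ∣ p := hpi.dvd_symm irreducible_X h9
    have h11 := h10.trans h8
    rw [X_dvd_iff, coeff_C_zero] at h11
    exact hP h11

end

theorem pf_NFI : T_NFI := by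
  intro k E _ _ _ _ P Q x y z hch
  have hinj := ev_inj x z hch.ind
  have hy := hch.eq
  have heval : (X ^ 2 - C (dp P Q) : k[X][X][X]).eval₂ (ev x z : k[X][X] →ₐ[k] E) y = 0 := by
    rw [eval₂_sub, eval₂_pow, eval₂_X, eval₂_C]
    have h1 : ((ev x z : k[X][X] →ₐ[k] E) : k[X][X] →+* E) (dp P Q) = y ^ 2 := by
      rw [hy]
      exact dp_ev P Q x z
    rw [h1, sub_self]
  obtain ⟨φ, hφ⟩ : ∃ φ : CR P Q →ₐ[k] E, φ = AdjoinRoot.liftAlgHom _ (ev x z) y heval := ⟨_, rfl⟩
  have hφx : φ (xC P Q) = x := by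
    rw [hφ]
    unfold xC
    rw [AdjoinRoot.liftAlgHom_of, ev_C, aeval_X]
  have hφz : φ (zC P Q) = z := by
    rw [hφ]
    unfold zC
    rw [AdjoinRoot.liftAlgHom_of, ev_X]
  have hφy : φ (yC P Q) = y := by
    rw [hφ]
    exact AdjoinRoot.liftAlgHom_root _ _ _ _
  have hmonic : (X ^ 2 - C (dp P Q) : k[X][X][X]).Monic := monic_X_pow_sub_C _ two_ne_zero
  have hφinj : Function.Injective φ := by
    rw [injective_iff_map_eq_zero]
    intro w hw
    obtain ⟨g, rfl⟩ := AdjoinRoot.mk_surjective w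
    obtain ⟨α, β, hab⟩ : ∃ α β : k[X][X],
        g %ₘ (X ^ 2 - C (dp P Q) : k[X][X][X]) = C β * X + C α := by
      have hd : (g %ₘ (X ^ 2 - C (dp P Q) : k[X][X][X])).natDegree < 2 := by
        have h1 : (X ^ 2 - C (dp P Q) : k[X][X][X]).natDegree = 2 := natDegree_X_pow_sub_C
        have h2 := natDegree_modByMonic_lt g hmonic (by
          intro h3
          rw [h3, natDegree_one] at h1
          omega)
        rwa [h1] at h2
      exact ⟨_, _, eq_X_add_C_of_natDegree_le_one (by omega)⟩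
    have hmk : AdjoinRoot.mk (X ^ 2 - C (dp P Q) : k[X][X][X]) g =
        AdjoinRoot.mk _ (C β * X + C α) := by
      rw [← hab, AdjoinRoot.mk_eq_mk]
      exact ⟨g /ₘ (X ^ 2 - C (dp P Q)), by
        have h1 := modByMonic_add_div g (X ^ 2 - C (dp P Q) : k[X][X][X])
        linear_combination -h1⟩
    rw [hmk] at hw ⊢
    have h1 : ev x z β * y + ev x z α = 0 := by
      rw [hφ, AdjoinRoot.liftAlgHom_mk, eval₂_add, eval₂_mul, eval₂_C, eval₂_C, eval₂_X] at hw
      exact hw
    by_cases hβ : β = 0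
    · rw [hβ, map_zero, zero_mul, zero_add] at h1
      have h2 : α = 0 := hinj (by rw [h1, map_zero])
      rw [hβ, h2, C_0, zero_mul, zero_add, map_zero]
    · exfalso
      apply dp_sq P Q hch.sep α β hβ
      apply hinj
      rw [map_pow, map_mul, map_pow, dp_ev, ← hy]
      linear_combination (ev x z α - ev x z β * y) * h1
  have hrange : φ.range = cr k x y z := by
    apply le_antisymm
    · rintro _ ⟨w, rfl⟩
      change φ w ∈ cr k x y z
      have hx : x ∈ cr k x y z := Algebra.subset_adjoin (by simp)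
      have hym : y ∈ cr k x y z := Algebra.subset_adjoin (by simp)
      have hz : z ∈ cr k x y z := Algebra.subset_adjoin (by simp)
      have hev : ∀ a : k[X][X], ev x z a ∈ cr k x y z := by
        intro a
        have h1 : ev x z a = eval₂ ((aeval x : k[X] →ₐ[k] E) : k[X] →+* E) z a := rfl
        rw [h1, eval₂_eq_sum_range]
        refine Subalgebra.sum_mem _ fun i _ => Subalgebra.mul_mem _ ?_ (Subalgebra.pow_mem _ hz _)
        have h2 : aeval x (a.coeff i) ∈ Algebra.adjoin k {x} := aeval_mem_adjoin_singleton k x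
        exact Algebra.adjoin_mono (by simp) h2
      obtain ⟨g, rfl⟩ := AdjoinRoot.mk_surjective w
      rw [hφ, AdjoinRoot.liftAlgHom_mk, eval₂_eq_sum_range]
      exact Subalgebra.sum_mem _ fun i _ =>
        Subalgebra.mul_mem _ (hev _) (Subalgebra.pow_mem _ hym _)
    · rw [Algebra.adjoin_le_iff]
      rintro a (rfl | rfl | rfl)
      · exact ⟨xC P Q, hφx⟩
      · exact ⟨yC P Q, hφy⟩
      · exact ⟨zC P Q, hφz⟩
  refine ⟨(AlgEquiv.ofInjective φ hφinj).trans (Subalgebra.equivOfEq _ _ hrange), ?_, ?_, ?_⟩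
  · exact hφx
  · exact hφy
  · exact hφz

end Pool.Agent.H74.UNT
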